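import Pool.Agent.X143.SD.Stm

/-! (CNT) of project SD: symmetric counting of embeddings. -/

set_option autoImplicit false

namespace Pool.Agent.X151.SD

open Finset Pool.Agent.X143.SD

lemma pick_swap {n d : ℕ} (ld : Fin n → ℕ) (s s' : Fin n) (hs : ld s < 2) (hs' : ld s' < 2)
    (e : Fin d ↪ Fin n) :
    pick 2 ld (e.trans (Equiv.swap s s').toEmbedding) = (pick 2 ld e).map (Equiv.swap s s') := by
  unfold pick
  have h1 : List.ofFn (e.trans (Equiv.swap s s').toEmbedding) =
      (List.ofFn e).map (Equiv.swap s s') := by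
    rw [List.map_ofFn]; rfl
  rw [h1, List.find?_map]
  have h2 : ((fun s => decide (ld s < 2)) ∘ (Equiv.swap s s' : Fin n → Fin n)) =
      (fun s => decide (ld s < 2)) := by
    funext x
    simp only [Function.comp]
    by_cases hx : x = s
    · subst hx
      rw [Equiv.swap_apply_left]
      simp [hs, hs']
    · by_cases hx' : x = s'
      · subst hx'
        rw [Equiv.swap_apply_right]
        simp [hs, hs']
      · rw [Equiv.swap_apply_of_ne_of_ne hx hx']
  rw [h2]

lemma m_eq {n d : ℕ} (ld : Fin n → ℕ) (s s' : Fin n) (hs : ld s < 2) (hs' : ld s' < 2) :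
    (univ.filter fun e : Fin d ↪ Fin n => pick 2 ld e = some s).card =
      (univ.filter fun e : Fin d ↪ Fin n => pick 2 ld e = some s').card := by
  refine Finset.card_bij (fun e _ => e.trans (Equiv.swap s s').toEmbedding) ?_ ?_ ?_
  · intro e he
    simp only [mem_filter, mem_univ, true_and] at he ⊢
    rw [pick_swap ld s s' hs hs', he]
    simp
  · intro e _ e' _ h
    ext j
    have := DFunLike.congr_fun h j
    simp only [Function.Embedding.trans_apply, Equiv.coe_toEmbedding, EmbeddingLike.apply_eq_iff_eq]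
      at this
    rw [this]
  · intro e he
    simp only [mem_filter, mem_univ, true_and] at he
    refine ⟨e.trans (Equiv.swap s s').toEmbedding, ?_, ?_⟩
    · simp only [mem_filter, mem_univ, true_and]
      rw [pick_swap ld s s' hs hs', he]
      simp
    · ext j
      simp

lemma m_full {n d : ℕ} (ld : Fin n → ℕ) (s : Fin n) (hs : ¬ ld s < 2) :
    (univ.filter fun e : Fin d ↪ Fin n => pick 2 ld e = some s).card = 0 := by
  rw [Finset.card_eq_zero, Finset.filter_eq_empty_iff]
  intro e _ he
  have := List.find?_some he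
  simp at this
  omega

lemma full_card {n : ℕ} (ld : Fin n → ℕ) :
    Fintype.card {x : Fin n // ¬ ld x < 2} = n - c0 ld - c1 ld := by
  rw [Fintype.card_subtype]
  have h1 := Finset.card_filter_add_card_filter_not (s := (univ : Finset (Fin n)))
    (fun x => ld x < 2)
  have h2 : (univ.filter fun x : Fin n => ld x < 2).card = c0 ld + c1 ld := by
    unfold c0 c1
    rw [← Finset.card_union_of_disjoint]
    · congr 1
      ext x
      simp only [mem_filter, mem_univ, true_and, mem_union]
      omega
    · rw [Finset.disjoint_left]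
      intro x hx hx'
      simp only [mem_filter, mem_univ, true_and] at hx hx'
      omega
  simp only [card_univ, Fintype.card_fin] at h1
  omega

lemma none_card {n d : ℕ} (ld : Fin n → ℕ) :
    (univ.filter fun e : Fin d ↪ Fin n => pick 2 ld e = none).card =
      (n - c0 ld - c1 ld).descFactorial d := by
  have hiff : ∀ e : Fin d ↪ Fin n, pick 2 ld e = none ↔ ∀ j, ¬ ld (e j) < 2 := by
    intro e
    unfold pick
    rw [List.find?_eq_none]
    simp [List.mem_ofFn]
  rw [← full_card ld]
  have h3 : Fintype.card (Fin d ↪ {x : Fin n // ¬ ld x < 2}) =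
      (Fintype.card {x : Fin n // ¬ ld x < 2}).descFactorial d := by
    rw [Fintype.card_embedding_eq, Fintype.card_fin]
  rw [← h3, ← Fintype.card_subtype]
  refine Fintype.card_congr ?_
  refine ⟨fun e => ⟨fun j => ⟨e.1 j, (hiff e.1).1 e.2 j⟩, ?_⟩,
    fun f => ⟨f.trans (Function.Embedding.subtype _), (hiff _).2 fun j => (f j).2⟩, ?_, ?_⟩
  · intro i j h
    exact e.1.injective (congrArg Subtype.val h)
  · intro e
    ext j
    rfl
  · intro f
    ext j
    rfl

lemma c0_up0 {n : ℕ} (ld : Fin n → ℕ) (s : Fin n) (h : ld s = 0) :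
    c0 (Function.update ld s (ld s + 1)) = c0 ld - 1 := by
  unfold c0
  have : (univ.filter fun x => Function.update ld s (ld s + 1) x = 0) =
      (univ.filter fun x => ld x = 0).erase s := by
    ext x
    by_cases hx : x = s
    · subst hx; simp
    · simp [Function.update_of_ne hx, hx]
  rw [this, card_erase_of_mem (by simp [h])]

lemma c1_up0 {n : ℕ} (ld : Fin n → ℕ) (s : Fin n) (h : ld s = 0) :
    c1 (Function.update ld s (ld s + 1)) = c1 ld + 1 := by
  unfold c1
  have : (univ.filter fun x => Function.update ld s (ld s + 1) x = 1) =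
      insert s (univ.filter fun x => ld x = 1) := by
    ext x
    by_cases hx : x = s
    · subst hx; simp [h]
    · simp [Function.update_of_ne hx, hx]
  rw [this, card_insert_of_notMem (by simp [h])]

lemma c0_up1 {n : ℕ} (ld : Fin n → ℕ) (s : Fin n) (h : ld s = 1) :
    c0 (Function.update ld s (ld s + 1)) = c0 ld := by
  unfold c0
  congr 1
  ext x
  by_cases hx : x = s
  · subst hx; simp [h]
  · simp [Function.update_of_ne hx]

lemma c1_up1 {n : ℕ} (ld : Fin n → ℕ) (s : Fin n) (h : ld s = 1) :
    c1 (Function.update ld s (ld s + 1)) = c1 ld - 1 := by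
  unfold c1
  have : (univ.filter fun x => Function.update ld s (ld s + 1) x = 1) =
      (univ.filter fun x => ld x = 1).erase s := by
    ext x
    by_cases hx : x = s
    · subst hx; simp [h]
    · simp [Function.update_of_ne hx, hx]
  rw [this, card_erase_of_mem (by simp [h])]

lemma sum_pick {n d : ℕ} (ld : Fin n → ℕ) (Φ : Option (Fin n) → ℝ) :
    ∑ e : Fin d ↪ Fin n, Φ (pick 2 ld e) =
      ((univ.filter fun e : Fin d ↪ Fin n => pick 2 ld e = none).card : ℝ) * Φ none +
      ∑ s, ((univ.filter fun e : Fin d ↪ Fin n => pick 2 ld e = some s).card : ℝ) * Φ (some s) := by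
  rw [← Finset.sum_fiberwise (univ : Finset (Fin d ↪ Fin n)) (fun e => pick 2 ld e)
    (fun e => Φ (pick 2 ld e)), Fintype.sum_option]
  have h : ∀ o : Option (Fin n), ∑ e ∈ univ.filter (fun e : Fin d ↪ Fin n => pick 2 ld e = o),
      Φ (pick 2 ld e) = ((univ.filter fun e : Fin d ↪ Fin n => pick 2 ld e = o).card : ℝ) * Φ o := by
    intro o
    rw [Finset.sum_congr rfl (g := fun _ => Φ o), Finset.sum_const, nsmul_eq_mul]
    intro e he
    rw [(mem_filter.1 he).2]
  rw [h none]
  congr 1
  exact Finset.sum_congr rfl fun s _ => h (some s)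

/-- the summand as a function of the school chosen -/
def Phi {n : ℕ} (ld : Fin n → ℕ) (G : ℕ → ℕ → ℝ) : Option (Fin n) → ℝ
  | none => G (c0 ld) (c1 ld)
  | some s => G (c0 (Function.update ld s (ld s + 1))) (c1 (Function.update ld s (ld s + 1)))

theorem t : Pool.Agent.X143.SD.S_CNT := by
  intro n d hd hdn ld hld G
  obtain ⟨m0, hm0⟩ : ∃ m0 : ℕ, ∀ s, (univ.filter fun e : Fin d ↪ Fin n => pick 2 ld e = some s).card
      = if ld s < 2 then m0 else 0 := by
    by_cases h : ∃ s0, ld s0 < 2
    · obtain ⟨s0, hs0⟩ := h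
      refine ⟨(univ.filter fun e : Fin d ↪ Fin n => pick 2 ld e = some s0).card, fun s => ?_⟩
      split_ifs with hs
      · exact m_eq ld s s0 hs hs0
      · exact m_full ld s hs
    · push Not at h
      refine ⟨0, fun s => ?_⟩
      rw [m_full ld s (not_lt.2 (h s))]
      simp
  have hsum : ∀ g1 g2 : ℝ, ∑ s : Fin n, (if ld s < 2 then (m0 : ℝ) else 0) *
      (if ld s = 0 then g1 else g2) = m0 * (c0 ld * g1 + c1 ld * g2) := by
    intro g1 g2
    have h1 : ∀ s : Fin n, (if ld s < 2 then (m0 : ℝ) else 0) * (if ld s = 0 then g1 else g2) =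
        (if ld s = 0 then m0 * g1 else 0) + (if ld s = 1 then m0 * g2 else 0) := by
      intro s
      rcases Nat.lt_or_ge (ld s) 2 with h | h
      · interval_cases ld s <;> simp
      · rw [if_neg (by omega), if_neg (by omega : ¬ ld s = 0), if_neg (by omega : ¬ ld s = 0),
          if_neg (by omega : ¬ ld s = 1)]
        simp
    rw [Finset.sum_congr rfl fun s _ => h1 s, Finset.sum_add_distrib, ← Finset.sum_filter,
      ← Finset.sum_filter, Finset.sum_const, Finset.sum_const, nsmul_eq_mul, nsmul_eq_mul]
    unfold c0 c1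
    ring
  have hT : (Fintype.card (Fin d ↪ Fin n) : ℝ) =
      ((n - c0 ld - c1 ld).descFactorial d : ℝ) + m0 * (c0 ld + c1 ld) := by
    have h1 := sum_pick (d := d) ld (fun _ => (1 : ℝ))
    have h2 := hsum 1 1
    simp only [Finset.sum_const, card_univ, nsmul_eq_mul, mul_one, none_card] at h1
    rw [h1]
    congr 1
    rw [show (m0 : ℝ) * (c0 ld + c1 ld) = m0 * (c0 ld * 1 + c1 ld * 1) by ring, ← h2]
    refine Finset.sum_congr rfl fun s _ => ?_
    rw [hm0 s]
    push_cast
    simp
  have hTpos : (0 : ℝ) < (n.descFactorial d : ℝ) := by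
    have := Nat.descFactorial_pos.2 hdn
    exact_mod_cast this
  have hcard : (Fintype.card (Fin d ↪ Fin n) : ℝ) = (n.descFactorial d : ℝ) := by
    rw [Fintype.card_embedding_eq, Fintype.card_fin, Fintype.card_fin]
  have hF : ∀ e : Fin d ↪ Fin n, G (c0 (step 2 ld e)) (c1 (step 2 ld e)) =
      Phi ld G (pick 2 ld e) := by
    intro e
    unfold step
    rcases h : pick 2 ld e with _ | s <;> rfl
  rw [Finset.sum_congr rfl fun e _ => hF e, sum_pick ld (Phi ld G), none_card]
  have hS : ∑ s : Fin n, ((univ.filter fun e : Fin d ↪ Fin n => pick 2 ld e = some s).card : ℝ) *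
      G (c0 (Function.update ld s (ld s + 1))) (c1 (Function.update ld s (ld s + 1))) =
      m0 * (c0 ld * G (c0 ld - 1) (c1 ld + 1) + c1 ld * G (c0 ld) (c1 ld - 1)) := by
    rw [← hsum]
    refine Finset.sum_congr rfl fun s _ => ?_
    rw [hm0 s]
    rcases Nat.lt_or_ge (ld s) 2 with h | h
    · rcases Nat.eq_zero_or_pos (ld s) with h0 | h0
      · rw [c0_up0 ld s h0, c1_up0 ld s h0]
        simp [h0]
      · have h1 : ld s = 1 := by omega
        rw [c0_up1 ld s h1, c1_up1 ld s h1]
        simp [h1]
    · rw [if_neg (by omega)]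
      simp [not_lt.2 h]
  simp only [Phi]
  rw [hS]
  unfold Pool.Agent.X143.SD.Top phi
  rw [hT]
  rw [hcard] at hT
  generalize ((n - c0 ld - c1 ld).descFactorial d : ℝ) = D at *
  generalize (n.descFactorial d : ℝ) = T at *
  generalize G (c0 ld) (c1 ld) = g0 at *
  generalize G (c0 ld - 1) (c1 ld + 1) = g1 at *
  generalize G (c0 ld) (c1 ld - 1) = g2 at *
  rw [← hT]
  rcases Nat.eq_zero_or_pos (c0 ld + c1 ld) with h0 | h0
  · have ha : c0 ld = 0 := by omega
    have hb : c1 ld = 0 := by omega
    rw [ha, hb] at hT ⊢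
    simp only [Nat.cast_zero, add_zero, mul_zero] at hT
    subst hT
    simp only [Nat.cast_zero, zero_mul, add_zero, mul_zero, zero_div]
    field_simp
  · have hab : ((c0 ld : ℝ) + c1 ld) ≠ 0 := by
      have : (0 : ℝ) < ((c0 ld + c1 ld : ℕ) : ℝ) := by exact_mod_cast h0
      push_cast at this
      exact this.ne'
    generalize (c0 ld : ℝ) = a at *
    generalize (c1 ld : ℝ) = b at *
    have hD : D = T - m0 * (a + b) := by linarith
    subst hD
    have hT0 : T ≠ 0 := hTpos.ne'
    field_simp
    ring

end Pool.Agent.X151.SD
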